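import Pool.Agent.Lib_helper51.BD.Main

/-!
# MP_45e720_ag: functions with bounded derivative on covering spaces and Lang's question

`X` is a compact connected complex surface with ample canonical bundle (`CanonicalAmple`; all notions
are expressed in the charts of `X`, see `Pool.Agent.Lib_helper51.BD.Defs`; the theorem for the notions
on the tangent bundle is in `Pool.Agent.Lib_helper82.KZ.Main`). (By the
classification of surfaces a projective surface without nonconstant maps from tori has an ample
canonical bundle, so for surfaces the question is open only in this case.)

The theorem. (1) Suppose that some covering space of `X` (possibly infinite, for instance the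
universal covering) has a nonconstant holomorphic function with bounded derivative, in the metric
lifted from `X` (`IsBoundedCovering`; for instance, by Cauchy's estimate, a bounded holomorphic
function). Then `X` is Kobayashi hyperbolic if and only if all holomorphic maps from complex tori to
`X` are constant, and it suffices that all holomorphic maps from elliptic curves to `X` are
constant. (2) This holds more generally if some finite unramified covering of `X` (for instance `X`
itself) has a nontrivial flat distance (`IsFlatDist`), that is, a function `ρ (u, u')` which is
near every point the pull-back of the distance of a complex Banach space by a holomorphic map; or a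
nonconstant holomorphic map to a complex torus or two symmetric differentials without common zero
direction at some point; or if all its null germs of curves with nonzero
derivative are tame (`IsTameCovering`), that is, a nonzero pluricanonical form or a nontrivial flat
distance vanishes along them. (3) In every `X` a nonconstant Brody curve (an entire curve with
bounded derivative) lies in a rational or elliptic curve, or it is Zariski dense and all its germs
are null and none of them is tame. Here a germ is null (`IsNullGerm`) if all jet gauges vanish
along it; a jet gauge is a nonnegative upper semicontinuous function of the `k`-jets of curves
which vanishes if the derivative is zero and is subharmonic along all holomorphic discs.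

The hypothesis of (1) is satisfied if the fundamental group of `X` (or a subgroup of finite index)
does not have Kazhdan's property (T): then there is a nonzero closed holomorphic one-form `w` with
values in a flat unitary Hilbert bundle on `X` (Mok 1995), and the integrals of `⟨w, v⟩`, `v` a
vector of the Hilbert space, are holomorphic functions with bounded derivative on the universal
covering. In particular it is satisfied if `X` has a nonconstant holomorphic map to a complex torus,
for instance if the irregularity of `X` is one. By (3) and McQuillan's theorem on foliations
(1998), which is not used and not proved here, the question also has a positive answer if `X`, or a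
finite unramified covering, has a nonzero symmetric differential: it vanishes along null germs, so a
Zariski dense null curve would be tangent to a (multi-)foliation.

Idea of the proof. Let `h` be a nonconstant Brody curve. By the dichotomy for jet gauges (a Brody
curve is doubly periodic, or all jet gauges vanish along it), applied to the gauge `‖(F ∘ c)' (0)‖`
(`F` the local maps to Banach spaces), the functions `F ∘ h` are locally constant, unless `h` is an
elliptic curve. Let `w = d F` and let `Z` be the zero set of `w`.

(a) Suppose that `w` has rank two somewhere or that `h (ℂ) ⊆ Z`. Then `h (ℂ)` is contained in a proper
analytic subset `D` of `X`, which is covered by finitely many discs `d_j` (Newton - Puiseux). Let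
`Q` be a form of degree `d` in three of the homogeneous coordinates of `X` in the projective space
which vanishes to the order `m d` at the centres of the discs: these are `O (d)` conditions on the
`(d + 1) (d + 2) / 2` coefficients. By the Schwarz lemma the supremum `S` of `|Q|` on `D` satisfies
`S ≤ 4 ^ (- m d) C ^ d S`, so `Q = 0` on `D`.

(b) Otherwise the leaves of `w = 0` are curves, and `h` is a leaf. For a form `Q` as above let
`A_Q (z) = |Q (h) (h' ∧ ξ) ^ k| / ‖w (ξ)‖ ^ k`, `ξ` any tangent vector at `h (z)` (`Q` is a section of
the `k`-th power of the canonical bundle). Since `w` is closed and has rank one, the direction of
`w (ξ)` is constant along `h`, and `A_Q` is locally the absolute value of a meromorphic function of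
`z`. If it is bounded, then it is constant by Liouville's theorem. Two forms `Q` with bounded `A_Q`
give a form which vanishes along `h`.
To prove that `A_Q` is bounded, let `ψ (x)` be the distance `‖F (x) - F (p)‖`, `p` a point of `Z`
near `x`; this is well defined near `Z`, since `w = 0` on `Z`, and it is constant on the components
of `h⁻¹ (U)`, `U` a neighbourhood of `Z`. On the components with `ψ = 0` (outside of `Z`) the curve
`h` lies in finitely many discs `d_j`, and `A_Q` is bounded if `Q` vanishes at their centres at least
to the order of `‖w‖ ^ k` (`O (d)` conditions). On a component with `ψ > 0` the curve `h` stays
away from `Z`, so `A_Q` is bounded there by a constant which depends on the component, and then by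
the supremum of its values outside of `h⁻¹ (U)`, by Liouville's theorem for subharmonic functions.

(c) So any three homogeneous coordinates satisfy a homogeneous relation along `h`. By the plane
theorem (a Brody curve of transcendence degree one is doubly periodic or rational) `h` lies in a
rational or elliptic curve. If there are no such curves, then there are no nonconstant Brody
curves, and `X` is hyperbolic.
-/

set_option autoImplicit false

open scoped Manifold ContDiff

namespace Pool.Agent.Results.MP_45e720_ag.BoundedDerivative

open Pool.Agent.BD

theorem result (E X : Type) [NormedAddCommGroup E] [NormedSpace ℂ E] [FiniteDimensional ℂ E]
    [TopologicalSpace X] [CompactSpace X] [T2Space X] [ConnectedSpace X] [ChartedSpace E X]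
    [IsManifold 𝓘(ℂ, E) ω X] (hX : CanonicalAmple E X) :
    ((∃ (Y : Type) (_ : TopologicalSpace Y) (_ : ChartedSpace E Y), IsBoundedCovering E X Y) ∨
        (∃ (X' : Type) (_ : TopologicalSpace X') (_ : ChartedSpace E X'), IsTameCovering E X X') →
      List.TFAE [∀ g : ℂ → X, IsElliptic E g → ∀ z z', g z = g z',
        ∀ (V : Type) [NormedAddCommGroup V] [NormedSpace ℂ V] [FiniteDimensional ℂ V],
          ConstantOnTori E X V,
        ∀ f : ℂ → X, MDifferentiable 𝓘(ℂ, ℂ) 𝓘(ℂ, E) f → ∀ z z', f z = f z',
        ∀ x : X, HyperbolicAt E x]) ∧
    ∀ h : ℂ → X, IsBrodyCurve E h → (∃ z z', h z ≠ h z') →
      (∃ g : ℂ → X, IsElliptic E g ∧ (∃ z z', g z ≠ g z') ∧ Set.range h ⊆ Set.range g) ∨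
      (ZariskiDense E h ∧ ∀ z : ℂ,
        IsNullGerm E (fun w => h (z + w)) ∧ ¬ IsTameGerm E (fun w => h (z + w))) :=
  main hX

end Pool.Agent.Results.MP_45e720_ag.BoundedDerivative
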