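import Pool.Agent.Lib_helper66.CT.C

/-!
# MP_45e720_ag: surfaces without maps from tori have calm discs

`X` is a compact connected complex surface with ample canonical bundle (`CanonicalVeryAmple`). For
surfaces this is the only open case of Lang's question: a surface of general type without
rational curves has ample canonical bundle.

The theorem. The following are equivalent:

(1) every holomorphic map from an elliptic curve to `X` is constant (in other words `X` contains no
rational and no elliptic curves);

(2) every holomorphic map from a complex torus to `X` is constant (`ConstantOnTori`);

(3) every Brody curve `f : ℂ → X` (its derivative is bounded: `DerivBound`) is nearly constant on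
arbitrarily large discs: there are `z_n` such that the translates `w ↦ f (z_n + w)` converge to a
constant;

(4) the uniform version of (3) for maps from discs: for all bounds `V`, `b` for the derivative, all
neighbourhoods `U` of the diagonal and all `r` there is `R` such that every holomorphic map from the
disc of radius `R` to `X` whose derivative is bounded by `V`, `b` is `U`-constant on some disc of
radius `r` inside the disc of radius `R`.

Lang's question asks whether (2) implies that every Brody curve is constant. So the theorem says
that the surfaces without maps from tori are exactly the surfaces with a weak form of Brody's
criterion.

Idea of the proof. There is a nonzero invariant jet differential of some order and positive weight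
on `X` (Green and Griffiths; `GG.has_invariant` is an elementary proof, by counting
conditions on sections in coordinates, without cohomology or Riemann-Roch). (1) ⇒ (3): let `f` be a
Brody curve such that no limit of translates of `f` is a constant (`f` is uniformly nonconstant).
Let `M` be a minimal closed translation invariant set of limits of translates of `f`. The value of
an invariant jet differential `P` on the jets of a Brody curve is a bounded entire function, so it
is a constant. If the constant is not zero, then the
curves of `M` are uniformly immersed, and they are doubly periodic by the theorem `BrodyRigidity`. If
`P` vanishes on the curves of `M`, then we take the derivatives of `P` in the direction of the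
highest derivatives until one of them does not vanish identically along the curves of `M`, and obtain
that all curves of `M` satisfy a common regular differential equation off a countable closed set of
points. It follows that two curves of `M` which are near to each other near a point are near to each
other near all other points (up to a change of the time), with constants that depend only on the
distance of the points. Suppose that a stable curve `f₀` in `M` (a point of continuity of the critical
points) is a limit of curves `h_n` in `M` whose images are different. The linearised displacement of
the curves `h_n` from `f₀`, together with the velocity of `f₀`, gives a plane in the tangent space,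
and the pluricanonical forms on this plane give an entire vector valued function `σ` of exponential
growth. Since the canonical bundle is positive, the Laplacian of `log ‖σ‖` is positive, uniformly
on discs of a fixed radius, because `f₀` is uniformly nonconstant; so `log ‖σ‖` grows like
`|z| ^ 2`, a contradiction. Hence the curves of `M` near `f₀` have the same image near `0` as `f₀`; by
minimality and the differential equation the image of one disc is the image of `ℂ`. So some limit
`g` of translates of `f` has a compact image.

Let `ι` be the immersion of `X` into a projective space by pluricanonical forms. By Siegel's lemma
and Schwarz's lemma any three homogeneous coordinates of `ι ∘ g` satisfy a homogeneous polynomial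
relation: choose a polynomial of degree `d` which vanishes to a high order at the centres of
finitely many discs which cover the image of `g`. By the plane theorem (`PT.plane`)
`ι ∘ g` is doubly periodic or a rational map of a curve `ℂ → ℙ¹`; since `ι` is an immersion, there is a
nonconstant holomorphic map from an elliptic curve to `X`.

(3) ⇒ (4) by compactness. (3) ⇒ (2): the restrictions of a map `φ` from a torus to complex lines are
Brody curves, and linear flows on a torus are minimal, so that such a restriction is constant if
some limit of its translates is constant.
-/

open Filter Topology Metric Set
open scoped Manifold ContDiff

namespace Pool.Agent.Results.MP_45e720_ag.CalmDiscs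

open Pool.Agent.BD Pool.Agent.CT

theorem result (E X : Type) [NormedAddCommGroup E] [NormedSpace ℂ E] [FiniteDimensional ℂ E]
    [TopologicalSpace X] [CompactSpace X] [T2Space X] [ConnectedSpace X] [ChartedSpace E X]
    [IsManifold 𝓘(ℂ, E) ω X] (hX : CT.CanonicalVeryAmple E X) :
    List.TFAE [
      ∀ g : ℂ → X, IsElliptic E g → ∀ z z', g z = g z',
      ∀ (W : Type) [NormedAddCommGroup W] [NormedSpace ℂ W] [FiniteDimensional ℂ W],
        ConstantOnTori E X W,
      ∀ (V : X → Set X) (b : X → ℝ), (∀ x, V x ∈ 𝓝 x) →
        ∀ f : ℂ → X, DerivBound E V b univ f →
          ∃ (z : ℕ → ℂ) (x : X), ∀ w, Tendsto (fun n => f (z n + w)) atTop (𝓝 x),
      ∀ (V : X → Set X) (b : X → ℝ), (∀ x, V x ∈ 𝓝 x) →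
        ∀ U : Set (X × X), IsOpen U → (∀ x, (x, x) ∈ U) → ∀ r : ℝ, ∃ R : ℝ,
          ∀ f : ℂ → X, DerivBound E V b (ball 0 R) f →
            ∃ z, ball z r ⊆ ball 0 R ∧ ∀ w ∈ ball z r, (f z, f w) ∈ U] :=
  calm_main hX

end Pool.Agent.Results.MP_45e720_ag.CalmDiscs
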