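import Pool.Agent.Lib_helper58.CE.Main

/-!
# MP_45e720_ag: level families and the equality case of Cartan's bound

`X` is a compact connected complex manifold such that the line bundle `O(1)` on the bundle of tangent
2-planes is ample (`PlaneAmple`; if `X` is a surface, then this says that the canonical bundle is
ample, and for surfaces this is the only open case of Lang's question).

Example of the theorem. Suppose that `X` is a surface with a holomorphic map to a projective space
and linear forms `L 1, …, L k` without common zeros on the image, `k ≥ 3`, such that
`∑ (L i) ^ d = 0` is, up to multiples, the only linear relation between the `(L i) ^ d` on `X`, and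
`d ≥ k * (k - 2)` (`HasFermatRelation`, `n = k - 2`). Then every nonconstant Brody curve (entire curve
with bounded derivative) in `X` is contained in a rational or elliptic curve, and `X` is Kobayashi
hyperbolic if and only if all holomorphic maps from complex tori to `X` are constant, and it suffices
that all holomorphic maps from elliptic curves to `X` are constant. This applies to all smooth
surfaces `∑ (L i) ^ d = 0` in the projective space of dimension three (`L i` pairwise not
proportional, `k ≥ 4`, `d ≥ k * (k - 2)`), which are simply connected. For `k = 4` and `d = 8` this is
the Fermat surface of degree eight, whose entire curves are the solutions of the functional equation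
`f ^ 8 + g ^ 8 + h ^ 8 = 1` in meromorphic functions. If `d > k * (k - 2)`, then all entire curves in
`X` are contained in inverse images of hyperplanes by Cartan's second main theorem (1933). New is the
equality case.

In general, a level family on `X` is the family of the inverse images of all hyperplanes under a
holomorphic map `φ` from `X` to the projective space of dimension `n > 0`, whose image is contained
in no hyperplane, such that for some hyperplanes `H i` in general position all components of
`φ⁻¹ (H i)` have a multiplicity of at least `m i` and `∑ max 0 (1 - n / m i) ≥ n + 1`; or the family of
the fibres of a holomorphic map from `X` to a complex torus. (In the example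
`φ = [(L 1) ^ d : … : (L k) ^ d]`, a map to the hyperplane `y 1 + … + y k = 0`, and all `m i` are `d`.)

The theorem. (1) Every Brody curve in `X` is doubly periodic, that is, it factors through an elliptic
curve, or it is contained in a member of each level family. (2) The two statements of the example
hold if some finite unramified covering `X'` of `X` (for instance `X` itself) is a surface as in the
example, or a surface with a level family which does not contain `X'`, or projective with finitely
many level families such that all intersections of members of them have dimension at most one.

Elliptic curves occur in the equality case: a plane cubic meets its nine inflectional tangents with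
multiplicity three, `9 * (1 - 2 / 3) = 3`. For `n = 1` the condition is `∑ (1 - 1 / m i) ≥ 2` (for
instance four fibres without reduced components): the orbifold base of `φ` in the sense of Campana
has nonnegative Kodaira dimension. Another example are the smooth complete intersections
`∑ k, c j k * x k ^ 4 = 0`, `j = 1, 2, 3`, in the projective space of dimension five: `n = 2`, six
lines with the multiplicity four.

Idea of the proof. Let `h` be a Brody curve, `G` a local lift of `φ ∘ h`, `W (G)` its Wronskian, `D i`
the linear form of `H i` at `G`. Choose integers `N > 0` and `e i ≤ N * (1 - n / m i)`, `e i ≥ 0`, with
the sum `(n + 1) * N`. Then `u = |W (G)| ^ N / ∏ |D i| ^ (e i)` does not depend on the lift, and it is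
locally the norm of a meromorphic function. If all zeros of a bounded holomorphic function `f` on a
disc have an order of at least `m`, then `|f ^ (k) (0)| ^ m ≤ C |f (0)| ^ (m - k)` for `k ≤ m` (take
the `m`-th root of `f` on the largest disc without zeros and use Schwarz's lemma at the nearest zero).
By this inequality for the `D i` along `h`, and on complex lines in charts of `X` for the first
derivative, `u ≤ C |h'| ^ N` on the whole plane. So `u` is bounded, hence constant. If `u = 0`, then the
Wronskian vanishes and `h` is contained in the inverse image of a hyperplane. If `u > 0`, then `|h'|`
is bounded below, so `h` is a uniformly immersed Brody curve, which is doubly periodic by the rigidity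
theorem for such curves (`PlaneAmple` is used here). The argument for maps to tori is similar. Proper
analytic subsets of surfaces are curves (Newton - Puiseux), and a Brody curve in a compact set of
dimension one is contained in a rational or elliptic curve. -/

set_option autoImplicit false

open scoped Manifold ContDiff

namespace Pool.Agent.Results.MP_45e720_ag.CartanEquality

open Pool.Agent.CartanLevels

/-- Level families and hyperbolicity. -/
theorem result (E X : Type) [NormedAddCommGroup E] [NormedSpace ℂ E] [FiniteDimensional ℂ E]
    [TopologicalSpace X] [CompactSpace X] [T2Space X] [ConnectedSpace X] [ChartedSpace E X]
    [IsManifold 𝓘(ℂ, E) ω X] (hX : PlaneAmple E X) :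
    (∀ 𝒵 : Set (Set X), IsLevelFamily E 𝒵 → ∀ h : ℂ → X, IsBrody E h →
      HasTwoPeriods h ∨ ∃ Z ∈ 𝒵, ∀ z, h z ∈ Z) ∧
    ∀ (X' : Type) [TopologicalSpace X'] [CompactSpace X'] [T2Space X'] [ConnectedSpace X']
      [ChartedSpace E X'] [IsManifold 𝓘(ℂ, E) ω X'] (π : X' → X), IsUnramified E π →
      Module.finrank ℂ E = 2 ∧ HasFermatRelation E X' ∨ HasSmallLevels E X' →
      (∀ h : ℂ → X, IsBrody E h → (∃ z z', h z ≠ h z') → InEllipticImage E h) ∧
      List.TFAE [NoEllipticCurves E X, NoTori E X, NoEntireCurves E X,
        ∀ x : X, HyperbolicAt E x] :=
  ⟨fun _ hZ _ hh => CE.level_dichotomy hX hZ hh, fun _ _ _ _ _ _ _ _ hπ hL =>
    CE.main hX hπ (hL.elim (fun h => CE.fermat_small h.1 h.2) id)⟩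

end Pool.Agent.Results.MP_45e720_ag.CartanEquality
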