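import Pool.Agent.Lib_helper66.CT.C

/-!
# MP_45e720_ag: surfaces without maps from tori: punctured discs, cylinders and annuli

`X` is a compact connected complex surface with ample canonical bundle (`CanonicalVeryAmple`). For
surfaces this is the only open case of Lang's question: a surface of general type without
rational curves has ample canonical bundle.

The theorem. The following are equivalent:

(1) every holomorphic map from an elliptic curve to `X` is constant (in other words `X` contains no
rational and no elliptic curves);

(2) every holomorphic map from a complex torus to `X` is constant (`ConstantOnTori`);

(3) every Brody curve `f : ℂ → X` (its derivative is bounded: `DerivBound`) with a period is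
constant; in other words every holomorphic `F : ℂ \ {0} → X` with `|w F'(w)|` bounded is constant;

(4) every holomorphic map `F` from the punctured unit disc to `X` such that `|w F'(w)|` is bounded
(`LogDerivBound`) extends to a holomorphic map from the unit disc;

(5) (uniform version) for all bounds and all `ε` there is `R` such that every
holomorphic map `f` from the annulus `1 / R < |w| < R` to `X`, with `|w f'(w)|` bounded by the
given bound, is `ε`-constant on the unit circle.

Lang's question asks whether (2) implies that every Brody curve is constant. For hyperbolic `X`
property (4) holds without the bound (theorem of Kwack), and the bound holds for all `F`.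

Idea of the proof. There is a nonzero invariant jet differential of some order and positive weight
on `X` (Green and Griffiths; `GG.has_invariant` is an elementary proof, by counting
conditions on sections in coordinates, without cohomology or Riemann-Roch). (1) ⇒ (3), (4). The
curve `f z = F (exp z)` on the left half-plane has bounded
derivative and the period `2 π i`. The limits of its translates to the left are entire Brody curves
with the period `2 π i`. A curve with this period which moves by at most `δ` near all points at
distance at most `ℓ` of a point moves by at most `δ / 2` near this point (`δ ≤ η₀`); hence if all
limits are constant, then `f` converges, and `F` extends. Otherwise there is a closed translation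
invariant set `M` of limits which is minimal among those that contain a nonconstant curve. If an
invariant jet differential does not vanish on `M` then there is a uniformly immersed curve in `M`,
which is doubly periodic by the theorem `BrodyRigidity`. If it vanishes on `M`, then the nonconstant
curves of `M` satisfy a regular differential equation off countably many points, and one has uniform
propagation of small displacements near the places where the curves are not nearly constant.
Suppose that a stable curve `f₀` in `M` is a limit of curves in `M` with other images. The
linearised displacement and the velocity of `f₀` give an entire vector valued function `σ` with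
the period `2 π i`, a section of the inverse image of a power of the canonical bundle. The logarithm
`μ` of the maximum of `σ` on vertical lines is convex. At the active places (where `f₀` moves) the
slopes of `μ` are bounded by the propagation, and there is a definite bend of `μ` since the
canonical bundle is positive. So there are only finitely many active places (modulo the period):
`f₀` converges at both ends, and its image is a rational curve. Otherwise all curves of `M` near
`f₀` have the same image, by minimality the same is true near each nonconstant member of `M`, and
it remains to control the places where the curves are nearly constant: in a calm vertical strip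
which ends at an active place a curve `h` of `M` is near to the end of a curve `h₀` which is calm on a
half-plane, and a norm equation along the strip shows that the values of `h` in the strip are
values of the holomorphic extension of `h₀` to the puncture. By compactness finitely many such ends
suffice. In this way one obtains a nonconstant Brody curve `g` in `M` with algebraic image: for a
finite set `Z` and all neighbourhoods `W` of `Z` the image of `g` is contained in the union of `W` and
the image of a closed disc.

Let `ι` be the immersion of `X` into a projective space by pluricanonical forms. By Siegel's lemma
and Schwarz's lemma any three homogeneous coordinates of `ι ∘ g` satisfy a homogeneous polynomial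
relation. By the plane theorem (`PT.plane`) `ι ∘ g` is doubly periodic or a rational map
of a curve `ℂ → ℙ¹`; since `ι` is an immersion, there is a nonconstant holomorphic map from an
elliptic curve to `X`.

(3) ⇒ (5) by compactness. (3), (4) or (5) ⇒ (2): let `φ` be a map from the torus `V / Λ` and `l` in
`Λ`. Then `z ↦ φ (w + z l)` is a Brody curve with the period one, and linear flows on tori are
minimal.
-/

open Filter Topology Metric Set
open scoped Manifold ContDiff

namespace Pool.Agent.Results.MP_45e720_ag.ThinNecks

open Pool.Agent.BD Pool.Agent.CT

theorem result (E X : Type) [NormedAddCommGroup E] [NormedSpace ℂ E] [FiniteDimensional ℂ E]
    [TopologicalSpace X] [CompactSpace X] [T2Space X] [ConnectedSpace X] [ChartedSpace E X]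
    [IsManifold 𝓘(ℂ, E) ω X] (hX : CT.CanonicalVeryAmple E X) :
    List.TFAE [
      ∀ g : ℂ → X, IsElliptic E g → ∀ z z', g z = g z',
      ∀ (W : Type) [NormedAddCommGroup W] [NormedSpace ℂ W] [FiniteDimensional ℂ W],
        ConstantOnTori E X W,
      ∀ (V : X → Set X) (b : X → ℝ), (∀ x, V x ∈ 𝓝 x) →
        ∀ f : ℂ → X, DerivBound E V b univ f →
          ∀ p : ℂ, p ≠ 0 → (∀ z, f (z + p) = f z) → ∀ z z', f z = f z',
      ∀ (V : X → Set X) (b : X → ℝ), (∀ x, V x ∈ 𝓝 x) →
        ∀ F : ℂ → X, LogDerivBound E V b (ball 0 1 \ {0}) F →
          ∃ F' : ℂ → X, MDifferentiableOn 𝓘(ℂ, ℂ) 𝓘(ℂ, E) F' (ball 0 1) ∧
            ∀ w ∈ ball (0 : ℂ) 1 \ {0}, F' w = F w,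
      ∀ (V : X → Set X) (b : X → ℝ), (∀ x, V x ∈ 𝓝 x) →
        ∀ U : Set (X × X), IsOpen U → (∀ x, (x, x) ∈ U) → ∃ R : ℝ,
          ∀ f : ℂ → X, LogDerivBound E V b {w | 1 / R < ‖w‖ ∧ ‖w‖ < R} f →
            ∀ w w' : ℂ, ‖w‖ = 1 → ‖w'‖ = 1 → (f w, f w') ∈ U] :=
  necks_main hX

end Pool.Agent.Results.MP_45e720_ag.ThinNecks
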